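import Pool.Agent.H93.EN.Targets4

/-!
# MP_009700_an, row U2: invariance makes the gradient orthogonal to the direction
-/

set_option autoImplicit false

namespace Pool.Agent.H42.EN

open MeasureTheory Set Metric Filter Topology Pool.Agent.H93.EN
open Pool.Agent.H93.BL hiding T_B1 T_B2 T_B3 T_SB T_SC

theorem bint {F : Type} [NormedAddCommGroup F] (g : ℂ → F)
    (hg : AEStronglyMeasurable g volume) (M R : ℝ) (h1 : ∀ y, ‖g y‖ ≤ M)
    (h2 : ∀ y, R < ‖y‖ → g y = 0) : Integrable g := by
  have hi : Integrable ((closedBall (0 : ℂ) R).indicator fun _ => M) :=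
    (integrable_indicator_iff measurableSet_closedBall).2
      (integrableOn_const measure_closedBall_lt_top.ne)
  refine hi.mono' hg (ae_of_all _ fun y => ?_)
  by_cases hy : y ∈ closedBall (0 : ℂ) R
  · rw [indicator_of_mem hy]
    exact h1 y
  · rw [indicator_of_notMem hy, h2 y (by simpa using hy), norm_zero]

theorem lin_aux (L : ℂ →L[ℝ] ℝ) (w : ℂ) :
    L w = (((L 1 : ℂ) + (L Complex.I : ℂ) * Complex.I) * (starRingEnd ℂ) w).re := by
  have e : w = w.re • (1 : ℂ) + w.im • Complex.I := by
    apply Complex.ext <;> simp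
  have h : L w = w.re * L 1 + w.im * L Complex.I := by
    conv_lhs => rw [e]
    rw [map_add, map_smul, map_smul, smul_eq_mul, smul_eq_mul]
  rw [h]
  simp [Complex.mul_re]
  ring

theorem u2 (h1 : T_CH) : T_U2 := by
  intro Φ hΦ x₀ R hInv δ hδ x hx w hw
  obtain ⟨-, -, -, -, C, hC, hch⟩ := h1
  obtain ⟨hcd, -, hb, hz, -, -, hgc, hgb, hgz⟩ := hch δ hδ
  obtain ⟨hm, hb01, R', hR'⟩ := hΦ
  have hφm : Measurable fun y => Φ y w := hm.comp (measurable_id.prodMk measurable_const)
  have hlin : ∀ z, fderiv ℝ (chi δ) z w = (gchi δ z * (starRingEnd ℂ) w).re := fun z =>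
    lin_aux (fderiv ℝ (chi δ) z) w
  have hdiff : Differentiable ℝ (chi δ) := hcd.differentiable (by simp)
  have hcont : Continuous (chi δ) := hcd.continuous
  have hwb : ∀ z, |fderiv ℝ (chi δ) z w| ≤ C / δ ^ 3 := by
    intro z
    rw [hlin]
    refine (Complex.abs_re_le_norm _).trans ?_
    rw [norm_mul, RCLike.norm_conj, hw, mul_one]
    exact hgb z
  have hfc : Continuous fun z => fderiv ℝ (chi δ) z w := by
    have e : (fun z => fderiv ℝ (chi δ) z w) = fun z => (gchi δ z * (starRingEnd ℂ) w).re :=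
      funext hlin
    rw [e]
    exact Complex.continuous_re.comp (hgc.mul continuous_const)
  have hΦ1 : ∀ y, |Φ y w| ≤ 1 := fun y => by
    rw [abs_of_nonneg (hb01 y w).1]
    exact (hb01 y w).2
  -- the function of `t`
  have hcb : ∀ z, |chi δ z| ≤ C / δ ^ 2 := fun z => by
    rw [abs_of_nonneg (hb z).1]
    exact (hb z).2
  have hder : HasDerivAt (fun t : ℝ => ∫ y, chi δ (x + (t : ℂ) * w - y) * Φ y w)
      (∫ y, fderiv ℝ (chi δ) (x + ((0 : ℝ) : ℂ) * w - y) w * Φ y w) 0 := by
    refine (hasDerivAt_integral_of_dominated_loc_of_deriv_le (μ := (volume : Measure ℂ))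
      (F := fun (t : ℝ) (y : ℂ) => chi δ (x + (t : ℂ) * w - y) * Φ y w)
      (F' := fun (t : ℝ) (y : ℂ) => fderiv ℝ (chi δ) (x + (t : ℂ) * w - y) w * Φ y w)
      (x₀ := 0) (s := univ) (bound := (closedBall (0 : ℂ) R').indicator fun _ => C / δ ^ 3)
      univ_mem ?_ ?_ ?_ ?_ ?_ ?_).2
    · refine Filter.Eventually.of_forall fun t => ?_
      exact ((hcont.comp (continuous_const.sub continuous_id)).measurable.mul
        hφm).aestronglyMeasurable
    · refine bint _ ((hcont.comp (continuous_const.sub continuous_id)).measurable.mul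
        hφm).aestronglyMeasurable (C / δ ^ 2) R' (fun y => ?_) fun y hy => ?_
      · rw [norm_mul, Real.norm_eq_abs, Real.norm_eq_abs]
        calc _ ≤ C / δ ^ 2 * 1 := mul_le_mul (hcb _) (hΦ1 y) (abs_nonneg _) (by positivity)
          _ = _ := mul_one _
      · change chi δ _ * Φ y w = 0
        rw [hR' y w hy, mul_zero]
    · exact ((hfc.comp (continuous_const.sub continuous_id)).measurable.mul
        hφm).aestronglyMeasurable
    · refine ae_of_all _ fun y t _ => ?_
      by_cases hy : y ∈ closedBall (0 : ℂ) R'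
      · rw [indicator_of_mem hy, norm_mul, Real.norm_eq_abs, Real.norm_eq_abs]
        calc _ ≤ C / δ ^ 3 * 1 := mul_le_mul (hwb _) (hΦ1 y) (abs_nonneg _) (by positivity)
          _ = _ := mul_one _
      · rw [indicator_of_notMem hy, hR' y w (by simpa using hy), mul_zero, norm_zero]
    · exact (integrable_indicator_iff measurableSet_closedBall).2
        (integrableOn_const measure_closedBall_lt_top.ne)
    · refine ae_of_all _ fun y t _ => ?_
      have hl : HasDerivAt (fun t : ℝ => x + (t : ℂ) * w - y) w t := by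
        have h := ((Complex.ofRealCLM.hasDerivAt (x := t)).mul_const w).const_add x
        have h' := h.sub_const y
        simpa using h'
      exact ((hdiff (x + (t : ℂ) * w - y)).hasFDerivAt.comp_hasDerivAt t hl).mul_const _
  have hconst : (fun t : ℝ => ∫ y, chi δ (x + (t : ℂ) * w - y) * Φ y w) =ᶠ[𝓝 0]
      fun _ => ∫ y, chi δ (x - y) * Φ y w := by
    have hpos : 0 < R - (dist x x₀ + δ) := by linarith
    filter_upwards [ball_mem_nhds (0 : ℝ) hpos] with t ht
    have ht' : |t| < R - (dist x x₀ + δ) := by simpa using ht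
    rw [← integral_add_right_eq_self (fun y => chi δ (x + (t : ℂ) * w - y) * Φ y w)
      ((t : ℂ) * w)]
    refine integral_congr_ae ?_
    filter_upwards [hInv w hw t] with y hy
    have e : x + (t : ℂ) * w - (y + (t : ℂ) * w) = x - y := by ring
    rw [e]
    by_cases h : δ ≤ ‖x - y‖
    · rw [hz _ h, zero_mul, zero_mul]
    · rw [not_le] at h
      have hyx : dist y x < δ := by rwa [dist_comm, dist_eq_norm]
      have hy1 : dist y x₀ < dist x x₀ + δ := by
        have := dist_triangle y x x₀
        linarith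
      have hy2 : dist (y + (t : ℂ) * w) x₀ < R := by
        have h3 : dist (y + (t : ℂ) * w) y = |t| := by
          rw [dist_eq_norm, add_sub_cancel_left, norm_mul, hw, mul_one, Complex.norm_real,
            Real.norm_eq_abs]
        have := dist_triangle (y + (t : ℂ) * w) y x₀
        linarith
      rw [hy (by rw [mem_ball]; linarith) (by rwa [mem_ball])]
  have hzero : (∫ y, fderiv ℝ (chi δ) (x + ((0 : ℝ) : ℂ) * w - y) w * Φ y w) = 0 :=
    hder.unique ((hasDerivAt_const (0 : ℝ) (∫ y, chi δ (x - y) * Φ y w)).congr_of_eventuallyEq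
      hconst)
  have hNi : Integrable fun y => gchi δ (x - y) * (Φ y w : ℂ) * (starRingEnd ℂ) w := by
    refine bint _ (((hgc.comp (continuous_const.sub continuous_id)).measurable.mul
        (Complex.measurable_ofReal.comp hφm)).mul_const _).aestronglyMeasurable (C / δ ^ 3) R'
        (fun y => ?_) fun y hy => ?_
    · rw [norm_mul, norm_mul, RCLike.norm_conj, hw, mul_one, Complex.norm_real,
        Real.norm_eq_abs]
      calc _ ≤ C / δ ^ 3 * 1 := mul_le_mul (hgb _) (hΦ1 y) (abs_nonneg _) (by positivity)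
        _ = _ := mul_one _
    · change gchi δ (x - y) * (Φ y w : ℂ) * _ = 0
      rw [hR' y w hy, Complex.ofReal_zero, mul_zero, zero_mul]
  have hre : (Nl Φ δ x w * (starRingEnd ℂ) w).re = 0 := by
    have e1 : Nl Φ δ x w * (starRingEnd ℂ) w =
        ∫ y, gchi δ (x - y) * (Φ y w : ℂ) * (starRingEnd ℂ) w := by
      rw [integral_mul_const]
      rfl
    have e2 : (∫ y, gchi δ (x - y) * (Φ y w : ℂ) * (starRingEnd ℂ) w).re =
        ∫ y, (gchi δ (x - y) * (Φ y w : ℂ) * (starRingEnd ℂ) w).re := by
      have h := Complex.reCLM.integral_comp_comm hNi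
      exact h.symm
    rw [e1, e2, ← hzero]
    refine integral_congr_ae (ae_of_all _ fun y => ?_)
    change (gchi δ (x - y) * (Φ y w : ℂ) * (starRingEnd ℂ) w).re =
      fderiv ℝ (chi δ) (x + ((0 : ℝ) : ℂ) * w - y) w * Φ y w
    rw [hlin, Complex.ofReal_zero, zero_mul, add_zero]
    have e3 : gchi δ (x - y) * (Φ y w : ℂ) * (starRingEnd ℂ) w =
        gchi δ (x - y) * (starRingEnd ℂ) w * (Φ y w : ℂ) := by ring
    rw [e3, Complex.re_mul_ofReal]
  have hww : (starRingEnd ℂ) w * w = 1 := by
    rw [mul_comm, Complex.mul_conj, Complex.normSq_eq_norm_sq, hw]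
    simp
  have hH : Hl Φ δ x w = (Nl Φ δ x w * (starRingEnd ℂ) w).im := by
    unfold Hl
    rw [map_mul, Complex.conj_I]
    have e : Nl Φ δ x w * (-Complex.I * (starRingEnd ℂ) w) =
        -Complex.I * (Nl Φ δ x w * (starRingEnd ℂ) w) := by ring
    rw [e]
    simp [Complex.mul_re]
  have hN : Nl Φ δ x w * (starRingEnd ℂ) w = Complex.I * (Hl Φ δ x w : ℂ) := by
    rw [hH]
    apply Complex.ext
    · rw [hre]
      simp
    · simp
  calc Nl Φ δ x w = Nl Φ δ x w * ((starRingEnd ℂ) w * w) := by rw [hww, mul_one]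
    _ = Nl Φ δ x w * (starRingEnd ℂ) w * w := by ring
    _ = Complex.I * w * (Hl Φ δ x w : ℂ) := by
      rw [hN]
      ring

end Pool.Agent.H42.EN
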