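import Pool.Agent.H93.EN.Targets4

/-!
# MP_009700_an, row U3: derivatives of the modes in terms of `h`
-/

set_option autoImplicit false

namespace Pool.Agent.H42.EN

open MeasureTheory Set Metric Filter Topology Pool.Agent.H93.EN
open Pool.Agent.H93.BL hiding T_B1 T_B2 T_B3 T_SB T_SC

theorem md_congr (g g' : ℂ → ℝ) (h : ∀ w : ℂ, ‖w‖ = 1 → g w = g' w) (k : ℤ) : md g k = md g' k := by
  unfold md
  congr 1
  refine intervalIntegral.integral_congr fun θ _ => ?_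
  rw [h _ (Complex.norm_exp_ofReal_mul_I θ)]

theorem re_aux (w : ℂ) (H : ℝ) : (Complex.I * w * (H : ℂ)).re = -(w.im) * H := by
  simp [Complex.mul_re, Complex.mul_im]

theorem im_aux (w : ℂ) (H : ℝ) : (Complex.I * w * (H : ℂ)).im = w.re * H := by
  simp [Complex.mul_re, Complex.mul_im]

theorem u3 (h1 : T_U1) (h2 : T_U2) (h3 : T_B2) (h4 : T_U0) : T_U3 := by
  intro Φ hΦ x₀ R hInv δ hδ x hx k
  have u := h1 Φ hΦ δ hδ k
  have u1 := u.2.1
  have u2 := u.2.2.1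
  have hN := h2 Φ hΦ x₀ R hInv δ hδ x hx
  obtain ⟨C, hC, hU⟩ := h4
  have hU' := hU Φ hΦ δ hδ
  have hHm := hU'.2.2.1
  have hb := hU'.2.2.2
  have hgm : Measurable (Hl Φ δ x) := hHm.of_uncurry_left
  have hgb : ∀ w : ℂ, ‖w‖ = 1 → |Hl Φ δ x w| ≤ C / δ := fun w hw =>
    ((hb x w).2.2.2.1 hw).trans (hb x w).2.2.1
  have h5 := (h3 (Hl Φ δ x) (Hl Φ δ x) (C / δ) hgm hgm hgb hgb).2.2.2 k
  have h6 := h5.2.2.2.1
  have h7 := h5.2.2.2.2
  refine ⟨?_, ?_⟩
  · refine (u1 x).trans (Eq.trans ?_ h6)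
    refine md_congr _ _ (fun w hw => ?_) k
    rw [hN w hw]
    exact re_aux w _
  · refine (u2 x).trans (Eq.trans ?_ (h7.trans ?_))
    · refine md_congr _ _ (fun w hw => ?_) k
      rw [hN w hw]
      exact im_aux w _
    · rw [add_comm]

end Pool.Agent.H42.EN
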